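import Pool.Agent.H90.CS.Targets

/-!
# GLO (board lcs_modules): the lower bound for the number
-/

set_option autoImplicit false

open Finset Pool.Agent.H44.MS Pool.Agent.H90.LC Pool.Agent.H90.CS

namespace Pool.Agent.H34.LCS

theorem sum_log_primeFactors_le (m : ℕ) (hm : m ≠ 0) :
    ∑ p ∈ m.primeFactors, Real.log (p : ℝ) ≤ Real.log m := by
  have h1 : ∑ p ∈ m.primeFactors, Real.log (p : ℝ) =
      Real.log ((∏ p ∈ m.primeFactors, p : ℕ) : ℝ) := by
    push_cast
    rw [Real.log_prod]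
    intro p hp
    have := (Nat.prime_of_mem_primeFactors hp).pos
    positivity
  rw [h1]
  apply Real.log_le_log
  · have : 0 < ∏ p ∈ m.primeFactors, p :=
      Finset.prod_pos fun p hp => (Nat.prime_of_mem_primeFactors hp).pos
    exact_mod_cast this
  · exact_mod_cast Nat.le_of_dvd (Nat.pos_of_ne_zero hm) (Nat.prod_primeFactors_dvd m)

theorem mem_GF (R N m : ℕ) : m ∈ GF R N ↔ (1 ≤ m ∧ m ≤ N) ∧ Gd R m := by
  classical
  unfold GF
  rw [mem_filter, mem_Icc]

theorem pf_GLO (h1 : T_TH1) (h2 : T_REC) : T_GLO := by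
  classical
  obtain ⟨c₁, hc₁, hTH⟩ := h1
  obtain ⟨c₂, hc₂, hREC⟩ := h2
  refine ⟨c₁ * c₂ / 4, by positivity, ?_⟩
  intro R
  obtain ⟨Y₀, hY₀⟩ := hTH R
  obtain ⟨Y, hYdef⟩ : ∃ Y : ℕ, Y = max Y₀ 1 := ⟨_, rfl⟩
  have hY1 : 1 ≤ Y := by rw [hYdef]; exact le_max_right _ _
  have hY : ∀ X : ℕ, Y ≤ X →
      c₁ * X ≤ ∑ p ∈ (Ioc R X).filter (fun p => p.Prime ∧ p % 4 = 1), Real.log p := fun X hX =>
    hY₀ X (le_trans (by rw [hYdef]; exact le_max_left _ _) hX)
  refine ⟨4 * Y ^ 2 + 4, ?_⟩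
  intro N hN
  have hN4 : 4 ≤ N := by omega
  have hNY : 4 * Y ^ 2 ≤ N := by omega
  have hNr : (4 : ℝ) ≤ N := by exact_mod_cast hN4
  have hYr : (1 : ℝ) ≤ Y := by exact_mod_cast hY1
  have hlogN : 0 < Real.log N := Real.log_pos (by linarith)
  -- the upper bound for the double sum
  have hup : ∑ m ∈ GF R N, ∑ p ∈ m.primeFactors, Real.log (p : ℝ) ≤
      (GF R N).card * Real.log N := by
    rw [← nsmul_eq_mul]
    apply Finset.sum_le_card_nsmul
    intro m hm
    rw [mem_GF] at hm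
    refine le_trans (sum_log_primeFactors_le m (by omega)) ?_
    apply Real.log_le_log
    · exact_mod_cast hm.1.1
    · exact_mod_cast hm.1.2
  -- the lower bound
  have hlow : ∑ k ∈ GF R (N / Y), ∑ p ∈ (Ioc R (N / k)).filter (fun p => p.Prime ∧ p % 4 = 1),
      Real.log (p : ℝ) ≤ ∑ m ∈ GF R N, ∑ p ∈ m.primeFactors, Real.log (p : ℝ) := by
    rw [Finset.sum_sigma', Finset.sum_sigma']
    have e1 : ∑ x ∈ (GF R (N / Y)).sigma
        (fun k => (Ioc R (N / k)).filter (fun p => p.Prime ∧ p % 4 = 1)), Real.log (x.2 : ℝ) =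
        ∑ x ∈ ((GF R (N / Y)).sigma
          (fun k => (Ioc R (N / k)).filter (fun p => p.Prime ∧ p % 4 = 1))).image
            (fun x : (_ : ℕ) × ℕ => (⟨x.2 * x.1, x.2⟩ : (_ : ℕ) × ℕ)), Real.log (x.2 : ℝ) := by
      rw [Finset.sum_image]
      rintro ⟨k, p⟩ hx ⟨l, q⟩ hy hxy
      rw [Finset.mem_coe, mem_sigma] at hx hy
      simp only [Sigma.mk.injEq, heq_eq_eq] at hxy
      obtain ⟨h3, h4⟩ := hxy
      subst h4
      have hp0 : 0 < p := (mem_filter.1 hx.2).2.1.pos
      have : k = l := Nat.eq_of_mul_eq_mul_left hp0 h3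
      rw [this]
    rw [e1]
    apply Finset.sum_le_sum_of_subset_of_nonneg
    · intro x hx
      rw [mem_image] at hx
      obtain ⟨⟨k, p⟩, hx, rfl⟩ := hx
      rw [mem_sigma] at hx ⊢
      obtain ⟨hk, hp⟩ := hx
      simp only at hk hp
      rw [mem_GF] at hk
      rw [mem_filter, mem_Ioc] at hp
      obtain ⟨⟨hRp, hpN⟩, hpp, hp4⟩ := hp
      have hk0 : 0 < k := hk.1.1
      have hpk : p * k ≤ N := by
        have := Nat.mul_le_of_le_div k p N hpN
        exact this
      refine ⟨?_, ?_⟩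
      · simp only
        rw [mem_GF]
        refine ⟨⟨Nat.mul_pos hpp.pos hk0, hpk⟩, ?_⟩
        intro q hq hqd
        rcases (Nat.Prime.dvd_mul hq).1 hqd with h | h
        · have : q = p := (Nat.prime_dvd_prime_iff_eq hq hpp).1 h
          rw [this]
          exact ⟨hp4, hRp⟩
        · exact hk.2 q hq h
      · simp only
        rw [Nat.mem_primeFactors]
        exact ⟨hpp, Dvd.intro k rfl, (Nat.mul_pos hpp.pos hk0).ne'⟩
    · intro x _ _
      exact Real.log_natCast_nonneg x.2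
  have hin : c₁ * N / 2 * ∑ k ∈ GF R (N / Y), 1 / (k : ℝ) ≤
      ∑ k ∈ GF R (N / Y), ∑ p ∈ (Ioc R (N / k)).filter (fun p => p.Prime ∧ p % 4 = 1),
        Real.log (p : ℝ) := by
    rw [Finset.mul_sum]
    apply Finset.sum_le_sum
    intro k hk
    rw [mem_GF] at hk
    have hk0 : 0 < k := hk.1.1
    have hkY : Y ≤ N / k := by
      rw [Nat.le_div_iff_mul_le hk0, mul_comm]
      exact Nat.mul_le_of_le_div Y k N hk.1.2
    refine le_trans ?_ (hY (N / k) hkY)
    have hk0r : (0 : ℝ) < k := by exact_mod_cast hk0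
    have h5 : (N : ℝ) / k ≤ 2 * ((N / k : ℕ) : ℝ) := by
      have h6 : (N : ℝ) / k < ((N / k : ℕ) : ℝ) + 1 := by
        rw [div_lt_iff₀ hk0r]
        have := Nat.lt_div_mul_add (a := N) hk0
        have h7 : N < (N / k + 1) * k := by
          rw [add_mul, one_mul]
          exact this
        exact_mod_cast h7
      have h8 : (1 : ℝ) ≤ ((N / k : ℕ) : ℝ) := by
        exact_mod_cast le_trans hY1 hkY
      linarith
    calc c₁ * N / 2 * (1 / (k : ℝ)) = c₁ / 2 * (N / k) := by ring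
      _ ≤ c₁ / 2 * (2 * ((N / k : ℕ) : ℝ)) := by
          apply mul_le_mul_of_nonneg_left h5 (by positivity)
      _ = c₁ * ((N / k : ℕ) : ℝ) := by ring
  -- the sum of the reciprocals
  have hNYq : (N : ℝ) / (2 * Y) ≤ ((N / Y : ℕ) : ℝ) := by
    have hY0r : (0 : ℝ) < Y := by linarith
    have h6 : (N : ℝ) / Y < ((N / Y : ℕ) : ℝ) + 1 := by
      rw [div_lt_iff₀ hY0r]
      have := Nat.lt_div_mul_add (a := N) (by omega : 0 < Y)
      have h7 : N < (N / Y + 1) * Y := by
        rw [add_mul, one_mul]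
        exact this
      exact_mod_cast h7
    have h8 : (1 : ℝ) ≤ ((N / Y : ℕ) : ℝ) := by
      have : 1 ≤ N / Y := by
        rw [Nat.le_div_iff_mul_le (by omega)]
        nlinarith
      exact_mod_cast this
    have h9 : (N : ℝ) / (2 * Y) = (N / Y) / 2 := by
      rw [div_div, mul_comm]
    rw [h9]
    linarith
  have hsq : √(N : ℝ) ≤ (N : ℝ) / (2 * Y) := by
    have h3 : (2 * Y : ℝ) ≤ √(N : ℝ) := by
      apply Real.le_sqrt_of_sq_le
      have : (4 * Y ^ 2 : ℝ) ≤ N := by exact_mod_cast hNY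
      nlinarith
    rw [le_div_iff₀ (by positivity)]
    calc √(N : ℝ) * (2 * Y) ≤ √(N : ℝ) * √(N : ℝ) :=
          mul_le_mul_of_nonneg_left h3 (Real.sqrt_nonneg _)
      _ = N := Real.mul_self_sqrt (by positivity)
  have hq2r : (2 : ℝ) ≤ ((N / Y : ℕ) : ℝ) := by
    have : (2 : ℝ) ≤ √(N : ℝ) := Real.le_sqrt_of_sq_le (by norm_num; linarith)
    linarith
  have hq2 : 2 ≤ N / Y := by exact_mod_cast hq2r
  have hlogq : Real.log N / 4 ≤ Real.log ((N / Y : ℕ) : ℝ) := by
    have h3 : Real.log (√(N : ℝ)) ≤ Real.log ((N / Y : ℕ) : ℝ) := by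
      apply Real.log_le_log
      · exact Real.sqrt_pos.2 (by linarith)
      · linarith
    rw [Real.log_sqrt (by positivity)] at h3
    linarith
  have hR := hREC R (N / Y) hq2
  have hVR0 : 0 ≤ VR R := by
    unfold VR
    apply Finset.prod_nonneg
    intro p hp
    have hp' := (mem_filter.1 hp).2.1
    have : (1 : ℝ) ≤ p := by exact_mod_cast hp'.one_lt.le
    rw [sub_nonneg]
    exact div_le_one_of_le₀ this (by positivity)
  have hs : 0 < √(Real.log N) := Real.sqrt_pos.2 hlogN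
  have hss : √(Real.log N) * √(Real.log N) = Real.log N := Real.mul_self_sqrt hlogN.le
  have hsq2 : √(Real.log N) / 2 ≤ √(Real.log ((N / Y : ℕ) : ℝ)) := by
    have e : √(Real.log N) / 2 = √(Real.log N / 4) := by
      rw [Real.sqrt_div hlogN.le]
      norm_num
    rw [e]
    exact Real.sqrt_le_sqrt hlogq
  have hmain : c₁ * N / 2 * (c₂ * VR R * (√(Real.log N) / 2)) ≤
      (GF R N).card * Real.log N := by
    refine le_trans ?_ (le_trans hin (le_trans hlow hup))
    apply mul_le_mul_of_nonneg_left _ (by positivity)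
    refine le_trans ?_ hR
    apply mul_le_mul_of_nonneg_left hsq2 (by positivity)
  rw [div_le_iff₀ hs]
  have hmain2 : c₁ * N / 2 * (c₂ * VR R * (√(Real.log N) / 2)) ≤
      (GF R N).card * (√(Real.log N) * √(Real.log N)) := by
    rw [hss]
    exact hmain
  have h10 : (c₁ * c₂ / 4 * VR R * N) * √(Real.log N) ≤
      (((GF R N).card : ℝ) * √(Real.log N)) * √(Real.log N) := by
    calc (c₁ * c₂ / 4 * VR R * N) * √(Real.log N)
        = c₁ * N / 2 * (c₂ * VR R * (√(Real.log N) / 2)) := by ring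
      _ ≤ (GF R N).card * (√(Real.log N) * √(Real.log N)) := hmain2
      _ = (((GF R N).card : ℝ) * √(Real.log N)) * √(Real.log N) := by ring
  exact le_of_mul_le_mul_right h10 hs

end Pool.Agent.H34.LCS
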