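import Pool.Agent.H90.CS.Targets

/-!
# REC (board lcs_modules): the sum of the reciprocals
-/

set_option autoImplicit false

open Finset Pool.Agent.H44.MS Pool.Agent.H90.LC Pool.Agent.H90.CS

namespace Pool.Agent.H34.LCS

/-- the sum of the reciprocals of the `n ≤ X` which no element of `S` divides -/
noncomputable def FS (S : Finset ℕ) (X : ℕ) : ℝ :=
  ∑ n ∈ (Icc 1 X).filter (fun n => ∀ p ∈ S, ¬ p ∣ n), 1 / (n : ℝ)

theorem FS_step (S : Finset ℕ) (p X : ℕ) (hp : p.Prime) :
    (1 - 1 / (p : ℝ)) * FS S X ≤ FS (insert p S) X := by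
  classical
  have h1 : FS S X = FS (insert p S) X +
      ∑ n ∈ (Icc 1 X).filter (fun n => (∀ q ∈ S, ¬ q ∣ n) ∧ p ∣ n), 1 / (n : ℝ) := by
    unfold FS
    rw [← Finset.sum_filter_add_sum_filter_not
      ((Icc 1 X).filter (fun n => ∀ p ∈ S, ¬ p ∣ n)) (fun n => ¬ p ∣ n)]
    congr 1
    · apply Finset.sum_congr _ (fun _ _ => rfl)
      ext n
      simp only [mem_filter, mem_insert, forall_eq_or_imp]
      tauto
    · apply Finset.sum_congr _ (fun _ _ => rfl)
      ext n
      simp only [mem_filter, not_not]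
      tauto
  have h2 : ∑ n ∈ (Icc 1 X).filter (fun n => (∀ q ∈ S, ¬ q ∣ n) ∧ p ∣ n), 1 / (n : ℝ) ≤
      1 / (p : ℝ) * FS S X := by
    unfold FS
    rw [Finset.mul_sum]
    have hpp : 0 < p := hp.pos
    have e1 : ∑ n ∈ (Icc 1 X).filter (fun n => (∀ q ∈ S, ¬ q ∣ n) ∧ p ∣ n), 1 / (n : ℝ) =
        ∑ k ∈ ((Icc 1 X).filter (fun n => (∀ q ∈ S, ¬ q ∣ n) ∧ p ∣ n)).image (fun n => n / p),
          1 / (p : ℝ) * (1 / (k : ℝ)) := by
      rw [Finset.sum_image]
      · apply Finset.sum_congr rfl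
        intro n hn
        rw [mem_filter] at hn
        obtain ⟨-, -, k, rfl⟩ := hn
        rw [Nat.mul_div_cancel_left k hpp]
        push_cast
        rw [one_div_mul_one_div]
      · intro a ha b hb hab
        rw [Finset.mem_coe, mem_filter] at ha hb
        obtain ⟨-, -, k, rfl⟩ := ha
        obtain ⟨-, -, l, rfl⟩ := hb
        simp only [Nat.mul_div_cancel_left _ hpp] at hab
        rw [hab]
    rw [e1]
    apply Finset.sum_le_sum_of_subset_of_nonneg
    · intro k hk
      rw [mem_image] at hk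
      obtain ⟨n, hn, rfl⟩ := hk
      rw [mem_filter, mem_Icc] at hn
      obtain ⟨⟨h1, h2⟩, h3, k, rfl⟩ := hn
      rw [Nat.mul_div_cancel_left k hpp, mem_filter, mem_Icc]
      have hk1 : 1 ≤ k := by
        rcases Nat.eq_zero_or_pos k with h | h
        · rw [h] at h1
          simp at h1
        · exact h
      refine ⟨⟨hk1, le_trans (Nat.le_mul_of_pos_left k hpp) h2⟩, ?_⟩
      intro q hq hqk
      exact h3 q hq (Dvd.dvd.mul_left hqk p)
    · intro k _ _
      positivity
  rw [sub_mul, one_mul]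
  linarith

theorem FS_prod (S : Finset ℕ) (X : ℕ) (hS : ∀ p ∈ S, p.Prime) :
    (∏ p ∈ S, (1 - 1 / (p : ℝ))) * FS ∅ X ≤ FS S X := by
  classical
  induction S using Finset.induction_on with
  | empty => simp
  | insert p S hp ih =>
    have hpp : p.Prime := hS p (mem_insert_self p S)
    have hp1 : (0 : ℝ) ≤ 1 - 1 / (p : ℝ) := by
      have : (1 : ℝ) ≤ p := by exact_mod_cast hpp.one_lt.le
      rw [sub_nonneg]
      exact div_le_one_of_le₀ this (by positivity)
    rw [Finset.prod_insert hp, mul_assoc]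
    calc (1 - 1 / (p : ℝ)) * ((∏ q ∈ S, (1 - 1 / (q : ℝ))) * FS ∅ X)
        ≤ (1 - 1 / (p : ℝ)) * FS S X :=
          mul_le_mul_of_nonneg_left (ih fun q hq => hS q (mem_insert_of_mem hq)) hp1
      _ ≤ FS (insert p S) X := FS_step S p X hpp

theorem FS_empty (X : ℕ) : Real.log X ≤ FS ∅ X := by
  unfold FS
  have e : (Icc 1 X).filter (fun n => ∀ p ∈ (∅ : Finset ℕ), ¬ p ∣ n) = Icc 1 X := by
    apply Finset.filter_true_of_mem
    intro n _ p hp
    exact absurd hp (Finset.notMem_empty p)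
  rw [e]
  have h1 := log_add_one_le_harmonic X
  have h2 : ((harmonic X : ℚ) : ℝ) = ∑ n ∈ Icc 1 X, 1 / (n : ℝ) := by
    rw [harmonic_eq_sum_Icc]
    push_cast
    apply Finset.sum_congr rfl
    intro n _
    rw [one_div]
  rw [← h2]
  rcases Nat.eq_zero_or_pos X with h0 | h0
  · subst h0
    simp
  · refine le_trans ?_ h1
    apply Real.log_le_log
    · exact_mod_cast h0
    · push_cast
      linarith

theorem pf_REC (hV : T_VV) : T_REC := by
  classical
  obtain ⟨c, C, hc, -, hVV⟩ := hV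
  refine ⟨c / 2 * √(Real.log 2), by
    have : 0 < Real.log 2 := Real.log_pos (by norm_num)
    positivity, ?_⟩
  intro R X hX
  obtain ⟨S, hS⟩ : ∃ S : Finset ℕ, S = (Icc 1 X).filter
      (fun p => p.Prime ∧ ¬ (p % 4 = 1 ∧ R < p)) := ⟨_, rfl⟩
  have hSp : ∀ p ∈ S, p.Prime := by
    intro p hp
    rw [hS, mem_filter] at hp
    exact hp.2.1
  have h1 := FS_prod S X hSp
  have h2 : FS S X = ∑ m ∈ GF R X, 1 / (m : ℝ) := by
    unfold FS GF
    apply Finset.sum_congr _ (fun _ _ => rfl)
    ext n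
    rw [mem_filter, mem_filter, and_congr_right_iff]
    intro hn
    rw [mem_Icc] at hn
    constructor
    · intro h p hp hpn
      by_contra hcon
      refine h p ?_ hpn
      rw [hS, mem_filter, mem_Icc]
      exact ⟨⟨hp.one_lt.le, le_trans (Nat.le_of_dvd hn.1 hpn) hn.2⟩, hp, hcon⟩
    · intro h p hp hpn
      rw [hS, mem_filter] at hp
      exact hp.2.2 (h p hp.2.1 hpn)
  have hlogX : 0 < Real.log X := Real.log_pos (by exact_mod_cast (by omega : 1 < X))
  -- the product
  have g01 : ∀ p : ℕ, p.Prime → 0 ≤ 1 - 1 / (p : ℝ) ∧ 1 - 1 / (p : ℝ) ≤ 1 := by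
    intro p hp
    have : (1 : ℝ) ≤ p := by exact_mod_cast hp.one_lt.le
    constructor
    · rw [sub_nonneg]
      exact div_le_one_of_le₀ this (by positivity)
    · have : 0 ≤ 1 / (p : ℝ) := by positivity
      linarith
  have h3 : ∏ p ∈ S, (1 - 1 / (p : ℝ)) = (∏ p ∈ Icc 1 X, (if p = 2 then (1 / 2 : ℝ) else 1)) *
      (VA (A3 2) X) * ∏ p ∈ Icc 1 X,
        (if p.Prime ∧ p % 4 = 1 ∧ p ≤ R then 1 - 1 / (p : ℝ) else 1) := by
    rw [hS, Finset.prod_filter, VA, ← Finset.prod_mul_distrib, ← Finset.prod_mul_distrib]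
    apply Finset.prod_congr rfl
    intro p _
    by_cases hp : p.Prime
    · rcases hp.eq_two_or_odd with h | h
      · subst h
        have e1 : ic (Nat.Prime 2 ∧ A3 2 2) = 0 := by
          unfold ic A3
          rw [if_neg]
          omega
        rw [e1]
        norm_num [hp]
      · have h4 : p % 4 = 1 ∨ p % 4 = 3 := by omega
        have hp2 : p ≠ 2 := by
          intro h'
          rw [h'] at h
          omega
        have hp3 : 2 < p := by
          have := hp.two_le
          omega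
        rw [if_neg hp2]
        rcases h4 with h4 | h4
        · have e1 : ic (p.Prime ∧ A3 2 p) = 0 := by
            unfold ic A3
            rw [if_neg]
            omega
          rw [e1]
          by_cases hR : p ≤ R
          · rw [if_pos ⟨hp, by omega⟩, if_pos ⟨hp, h4, hR⟩]
            simp
          · rw [if_neg (by
              rintro ⟨-, h'⟩
              exact h' ⟨h4, by omega⟩), if_neg (by
              rintro ⟨-, -, h'⟩
              exact hR h')]
            simp
        · have e1 : ic (p.Prime ∧ A3 2 p) = 1 := by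
            unfold ic A3
            rw [if_pos ⟨hp, h4, hp3⟩]
          rw [e1, if_pos ⟨hp, by omega⟩, if_neg (by
            rintro ⟨-, h', -⟩
            omega)]
          simp
    · have hp2 : p ≠ 2 := by
        intro h'
        rw [h'] at hp
        exact hp Nat.prime_two
      have e1 : ic (p.Prime ∧ A3 2 p) = 0 := by
        unfold ic
        rw [if_neg fun h => hp h.1]
      rw [e1, if_neg hp2, if_neg fun h => hp h.1, if_neg fun h => hp h.1]
      simp
  have h4 : ∏ p ∈ Icc 1 X, (if p = 2 then (1 / 2 : ℝ) else 1) = 1 / 2 := by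
    rw [Finset.prod_ite_eq' (Icc 1 X) 2 (fun _ => (1 / 2 : ℝ))]
    rw [if_pos]
    rw [mem_Icc]
    omega
  have h5 : VR R ≤ ∏ p ∈ Icc 1 X,
      (if p.Prime ∧ p % 4 = 1 ∧ p ≤ R then 1 - 1 / (p : ℝ) else 1) := by
    rw [← Finset.prod_filter]
    unfold VR
    have hsub : (Icc 1 X).filter (fun p => p.Prime ∧ p % 4 = 1 ∧ p ≤ R) ⊆
        (Icc 1 R).filter (fun p => p.Prime ∧ p % 4 = 1) := by
      intro p hp
      rw [mem_filter, mem_Icc] at hp ⊢
      exact ⟨⟨hp.1.1, hp.2.2.2⟩, hp.2.1, hp.2.2.1⟩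
    rw [← Finset.prod_sdiff hsub]
    apply mul_le_of_le_one_left
    · apply Finset.prod_nonneg
      intro p hp
      exact (g01 p (mem_filter.1 hp).2.1).1
    · apply Finset.prod_le_one
      · intro p hp
        exact (g01 p (mem_filter.1 (mem_sdiff.1 hp).1).2.1).1
      · intro p hp
        exact (g01 p (mem_filter.1 (mem_sdiff.1 hp).1).2.1).2
  have hVR0 : 0 ≤ VR R := by
    unfold VR
    apply Finset.prod_nonneg
    intro p hp
    exact (g01 p (mem_filter.1 hp).2.1).1
  have h6 := (hVV 2 X le_rfl hX).1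
  rw [← h2]
  refine le_trans ?_ h1
  rw [h3, h4]
  have h7 := FS_empty X
  have e2 : √(Real.log ((2 : ℕ) : ℝ) / Real.log X) = √(Real.log 2) / √(Real.log X) := by
    rw [Real.sqrt_div (Real.log_pos (by norm_num : (1 : ℝ) < ((2 : ℕ) : ℝ))).le]
    norm_num
  rw [e2] at h6
  have hs : 0 < √(Real.log X) := Real.sqrt_pos.2 hlogX
  have hss : √(Real.log X) * √(Real.log X) = Real.log X := Real.mul_self_sqrt hlogX.le
  have h2s : 0 ≤ √(Real.log 2) := Real.sqrt_nonneg _
  calc c / 2 * √(Real.log 2) * VR R * √(Real.log X)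
      = (1 / 2 * (c * (√(Real.log 2) / √(Real.log X))) * VR R) *
          (√(Real.log X) * √(Real.log X)) := by
        field_simp
    _ ≤ (1 / 2 * VA (A3 2) X * ∏ p ∈ Icc 1 X,
          (if p.Prime ∧ p % 4 = 1 ∧ p ≤ R then 1 - 1 / (p : ℝ) else 1)) * FS ∅ X := by
        rw [hss]
        have hV0 : 0 ≤ VA (A3 2) X := le_trans (by positivity) h6
        apply mul_le_mul _ h7 hlogX.le
        · have : 0 ≤ ∏ p ∈ Icc 1 X,
            (if p.Prime ∧ p % 4 = 1 ∧ p ≤ R then 1 - 1 / (p : ℝ) else 1) := le_trans hVR0 h5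
          positivity
        · apply mul_le_mul _ h5 hVR0 (by positivity)
          apply mul_le_mul_of_nonneg_left h6 (by norm_num)

end Pool.Agent.H34.LCS
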